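import Pool.Agent.U280.IE.Link

/-!
# Classes modulo `N = λ - μ` up to sign, and multiplication by the primes dividing `λ μ`
-/

set_option autoImplicit false

namespace Pool.Agent.U280.IE

open Matrix Pool.Agent.TH441.SSE2 Pool.Agent.Y321.SE2

/-- The representative in `[0, N / 2]` of the class of `a` modulo `N` and sign. -/
def nn (N a : ℤ) : ℤ := if 2 * (a % N) ≤ N then a % N else N - a % N

lemma nn_bd {N : ℤ} (hN : 0 < N) (a : ℤ) : 0 ≤ nn N a ∧ 2 * nn N a ≤ N := by
  have h1 := Int.emod_nonneg a hN.ne'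
  have h2 := Int.emod_lt_of_pos a hN
  unfold nn
  split_ifs with h
  · exact ⟨h1, h⟩
  · constructor <;> omega

lemma nn_cong {N : ℤ} (a : ℤ) : N ∣ nn N a - a ∨ N ∣ nn N a + a := by
  have h1 := Int.emod_add_mul_ediv a N
  unfold nn
  split_ifs with h
  · left; exact ⟨-(a / N), by linear_combination h1⟩
  · right; exact ⟨1 + a / N, by linear_combination -h1⟩

lemma nn_unique {N : ℤ} (hN : 0 < N) {a c : ℤ} (h0 : 0 ≤ c) (h1 : 2 * c ≤ N)
    (h : N ∣ c - a ∨ N ∣ c + a) : nn N a = c := by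
  have h2 := Int.emod_nonneg a hN.ne'
  have h3 := Int.emod_lt_of_pos a hN
  have h4 := Int.emod_add_mul_ediv a N
  obtain ⟨r, hr⟩ : ∃ r, r = a % N := ⟨_, rfl⟩
  obtain ⟨d, hd⟩ : ∃ d, d = a / N := ⟨_, rfl⟩
  rw [← hr] at h2 h3 h4
  rw [← hd] at h4
  unfold nn
  rw [← hr]
  rcases h with ⟨k, hk⟩ | ⟨k, hk⟩
  · have e : c - r = N * (k + d) := by linear_combination hk - h4
    have e1 : k + d = 0 := by
      by_contra hne
      rcases lt_or_gt_of_ne hne with hlt | hgt
      · have : N * (k + d) ≤ N * (-1) := mul_le_mul_of_nonneg_left (by omega) hN.le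
        linarith
      · have : N * 1 ≤ N * (k + d) := mul_le_mul_of_nonneg_left (by omega) hN.le
        linarith
    rw [e1, mul_zero] at e
    rw [if_pos (by linarith)]
    linarith
  · have e : c + r = N * (k - d) := by linear_combination hk + h4
    have e1 : k - d = 0 ∨ k - d = 1 := by
      by_contra hne
      push Not at hne
      rcases lt_or_ge (k - d) 0 with hlt | hge
      · have : N * (k - d) ≤ N * (-1) := mul_le_mul_of_nonneg_left (by omega) hN.le
        linarith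
      · have : N * 2 ≤ N * (k - d) := mul_le_mul_of_nonneg_left (by omega) hN.le
        linarith
    rcases e1 with e1 | e1
    · rw [e1, mul_zero] at e
      rw [if_pos (by linarith)]
      linarith
    · rw [e1, mul_one] at e
      split_ifs with hif
      · linarith
      · linarith

/-- The presentation of a class. -/
def ZZ (p m y a : ℤ) : Matrix (Fin 3) (Fin 3) ℤ := YY p m y (nn (p - m + y) a)

lemma ZZ_congr {p m y a b : ℤ} (hN : 0 < p - m + y)
    (h : (p - m + y) ∣ a - b ∨ (p - m + y) ∣ a + b) : ZZ p m y a = ZZ p m y b := by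
  unfold ZZ
  congr 1
  obtain ⟨h1, h2⟩ := nn_bd hN b
  refine nn_unique hN h1 h2 ?_
  rcases nn_cong (N := p - m + y) b with h3 | h3 <;> rcases h with h4 | h4
  · left
    have := dvd_sub h3 h4
    have e : nn (p - m + y) b - b - (a - b) = nn (p - m + y) b - a := by ring
    rwa [e] at this
  · right
    have := dvd_add h3 h4
    have e : nn (p - m + y) b - b + (a + b) = nn (p - m + y) b + a := by ring
    rwa [e] at this
  · right
    have := dvd_add h3 h4
    have e : nn (p - m + y) b + b + (a - b) = nn (p - m + y) b + a := by ring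
    rwa [e] at this
  · left
    have := dvd_sub h3 h4
    have e : nn (p - m + y) b + b - (a + b) = nn (p - m + y) b - a := by ring
    rwa [e] at this

lemma YY_ZZ {p m y b : ℤ} (hp : 0 ≤ p) (hm : 0 ≤ m) (hN : 8 * (p + m) + 16 ≤ p - m + y)
    (h1 : 2 * b ≤ p - m + y) (h2 : -(2 * b) ≤ p - m + y) :
    Q (YY p m y b) (ZZ p m y b) := by
  have hN0 : 0 < p - m + y := by linarith
  unfold ZZ
  rcases le_or_gt 0 b with h | h
  · rw [nn_unique hN0 h h1 (Or.inl ⟨0, by ring⟩)]
    exact Q.refl _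
  · rw [nn_unique hN0 (c := -b) (by linarith) (by linarith) (Or.inr ⟨0, by ring⟩)]
    exact YY_refl hp hm hN h1 h2

/-- The link for an admissible multiplier. -/
lemma ZZ_link {p m y q : ℤ} (hp : 0 ≤ p) (hm : 0 ≤ m) (hq : 1 ≤ q)
    (hN : 16 * (p + m) + 16 * q ≤ p - m + y) (hd : q ∣ y ∨ q ∣ p - m) (a : ℤ) :
    Q (ZZ p m y a) (ZZ p m y (q * a)) := by
  have hN0 : 0 < p - m + y := by linarith
  obtain ⟨B, hB⟩ : ∃ B, B = nn (p - m + y) a := ⟨_, rfl⟩
  obtain ⟨h1, h2⟩ := nn_bd hN0 a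
  rw [← hB] at h1 h2
  obtain ⟨N, hNd⟩ : ∃ N, N = p - m + y := ⟨_, rfl⟩
  have hN1 : 0 < 2 * N := by linarith
  have g1 := Int.emod_add_mul_ediv (2 * (q * B) + N - 1) (2 * N)
  have g2 := Int.emod_nonneg (2 * (q * B) + N - 1) hN1.ne'
  have g3 := Int.emod_lt_of_pos (2 * (q * B) + N - 1) hN1
  obtain ⟨k, hk⟩ : ∃ k, k = (2 * (q * B) + N - 1) / (2 * N) := ⟨_, rfl⟩
  rw [← hk] at g1
  obtain ⟨b, hb⟩ : ∃ b, b = q * B - k * N := ⟨_, rfl⟩
  have hqB : q * (2 * B) ≤ q * N := mul_le_mul_of_nonneg_left (by linarith) (by linarith)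
  have hqB0 : 0 ≤ q * B := mul_nonneg (by linarith) h1
  have hk1 : 2 * k ≤ q := by
    by_contra hne
    push Not at hne
    have : (q + 1) * N ≤ (2 * k) * N := mul_le_mul_of_nonneg_right (by omega) (by linarith)
    linarith
  have hk0 : 0 ≤ k := by
    by_contra hne
    push Not at hne
    have : k * N ≤ (-1) * N := mul_le_mul_of_nonneg_right (by omega) (by linarith)
    linarith
  have q1 := link (p := p) (m := m) (y := y) (B := B) (q := q) (k := k) (b := b) hp hm hq hN h2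
    (by linarith) hd (by rw [hb, hNd]; ring) hk1 (by linarith) (by rw [← hNd]; linarith)
    (by rw [← hNd]; linarith)
  have q2 := YY_ZZ (p := p) (m := m) (y := y) (b := b) hp hm (by linarith)
    (by rw [← hNd]; linarith) (by rw [← hNd]; linarith)
  have e : ZZ p m y b = ZZ p m y (q * a) := by
    refine ZZ_congr hN0 ?_
    rw [← hNd]
    rcases nn_cong (N := p - m + y) a with h3 | h3
    · left
      rw [← hB, ← hNd] at h3
      obtain ⟨c, hc⟩ := h3
      exact ⟨q * c - k, by rw [hb]; linear_combination q * hc⟩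
    · right
      rw [← hB, ← hNd] at h3
      obtain ⟨c, hc⟩ := h3
      exact ⟨q * c - k, by rw [hb]; linear_combination q * hc⟩
  rw [← e]
  have e0 : ZZ p m y a = YY p m y B := by rw [hB]; rfl
  rw [e0]
  exact q1.trans q2

/-- The multiplier `n` is allowed for all classes. -/
def Al (p m y n : ℤ) : Prop := ∀ a : ℤ, Q (ZZ p m y a) (ZZ p m y (n * a))

lemma Al.natAbs {p m y n : ℤ} (hN : 0 < p - m + y) (h : Al p m y (n.natAbs : ℤ)) :
    Al p m y n := by
  intro a
  have h1 := h a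
  have e : ZZ p m y ((n.natAbs : ℤ) * a) = ZZ p m y (n * a) := by
    refine ZZ_congr hN ?_
    rcases Int.natAbs_eq n with h2 | h2
    · left; rw [← h2]; exact ⟨0, by ring⟩
    · right
      obtain ⟨k, hk⟩ : ∃ k : ℤ, k = (n.natAbs : ℤ) := ⟨_, rfl⟩
      rw [← hk] at h2 ⊢
      rw [h2]; exact ⟨0, by ring⟩
  rw [← e]; exact h1

lemma Al.of_primes {p m y : ℤ} (n : ℕ) : n ≠ 0 →
    (∀ r : ℕ, r.Prime → r ∣ n → Al p m y r) → Al p m y n := by
  induction n using induction_on_primes with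
  | zero => intro h; exact absurd rfl h
  | one => intro _ _ a; rw [Nat.cast_one, one_mul]; exact Q.refl _
  | prime_mul r k hr ih =>
    intro h0 h a
    have hk0 : k ≠ 0 := fun h1 => h0 (by rw [h1, mul_zero])
    have h1 := ih hk0 (fun s hs hsk => h s hs (hsk.mul_left r)) a
    have h2 := h r hr (dvd_mul_right r k) (k * a)
    have e : ((r * k : ℕ) : ℤ) * a = (r : ℤ) * (k * a) := by push_cast; ring
    rw [e]
    exact h1.trans h2

/-- The region. -/
structure Reg (p m y : ℤ) : Prop where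
  hp : 0 ≤ p
  hm : 0 ≤ m
  hx : p - m ≠ 0
  hy : 0 < y
  h : ∀ q : ℤ, 0 ≤ q → (q ≤ p + m ∨ q ^ 2 ≤ y) → 16 * (p + m) + 16 * q ≤ p - m + y

lemma Reg.N0 {p m y : ℤ} (h : Reg p m y) : 0 < p - m + y := by
  have h1 := h.h 0 le_rfl (Or.inl (by have := h.hp; have := h.hm; linarith))
  have h2 := h.hp
  have h3 := h.hm
  have h4 := h.hx
  by_contra hne
  push Not at hne
  have : p + m ≤ 0 := by linarith
  exact h4 (by linarith)

lemma Al_x {p m y : ℤ} (h : Reg p m y) {q : ℤ} (hq : 1 ≤ q) (hd : q ∣ p - m) :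
    Al p m y q := by
  have hle : q ≤ p + m := by
    have h1 := h.hp
    have h2 := h.hm
    have h3 : q ≤ |p - m| := Int.le_of_dvd (abs_pos.mpr h.hx) ((dvd_abs _ _).mpr hd)
    have h4 : |p - m| ≤ p + m := by
      rw [abs_le]; constructor <;> linarith
    linarith
  intro a
  exact ZZ_link h.hp h.hm hq (h.h q (by linarith) (Or.inl hle)) (Or.inr hd) a

lemma Al_x' {p m y : ℤ} (h : Reg p m y) : Al p m y (p - m) := by
  refine Al.natAbs h.N0 (Al_x h ?_ ?_)
  · have := h.hx
    omega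
  · exact Int.natAbs_dvd.mpr dvd_rfl

lemma Al_y {p m y : ℤ} (h : Reg p m y) {r : ℤ} (hr : 1 ≤ r) (hd : r ∣ y) : Al p m y r := by
  intro a
  rcases le_or_gt (r ^ 2) y with h1 | h1
  · exact ZZ_link h.hp h.hm hr (h.h r (by linarith) (Or.inr h1)) (Or.inl hd) a
  · obtain ⟨s, hs⟩ := hd
    have hy := h.hy
    have hs0 : 1 ≤ s := by
      by_contra hne
      push Not at hne
      have : r * s ≤ 0 := mul_nonpos_of_nonneg_of_nonpos (by linarith) (by omega)
      linarith
    have hsr : s < r := by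
      by_contra hne
      push Not at hne
      have : r * r ≤ r * s := mul_le_mul_of_nonneg_left hne (by linarith)
      nlinarith
    have hs2 : s ^ 2 ≤ y := by
      have : s * s ≤ r * s := mul_le_mul_of_nonneg_right hsr.le (by linarith)
      nlinarith
    have q1 := ZZ_link h.hp h.hm hs0 (h.h s (by linarith) (Or.inr hs2))
      (Or.inl ⟨r, by rw [hs]; ring⟩) (r * a)
    have e : ZZ p m y (s * (r * a)) = ZZ p m y ((p - m) * a) := by
      refine ZZ_congr h.N0 (Or.inr ⟨a, ?_⟩)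
      rw [hs]; ring
    rw [e] at q1
    exact (Al_x' h a).trans q1.symm

lemma Al_pow_x {p m y : ℤ} (h : Reg p m y) {ρ : ℤ} {l : ℕ} (hρ : ρ ∣ (p - m) ^ l) :
    Al p m y ρ := by
  refine Al.natAbs h.N0 (Al.of_primes ρ.natAbs ?_ ?_)
  · intro h0
    have h1 : ρ = 0 := Int.natAbs_eq_zero.mp h0
    rw [h1] at hρ
    exact (pow_ne_zero l h.hx) (zero_dvd_iff.mp hρ)
  · intro r hr hd
    refine Al_x h (by exact_mod_cast hr.one_le) ?_
    have h1 : (r : ℤ) ∣ (p - m) ^ l := (Int.natCast_dvd.mpr hd).trans hρ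
    exact (Nat.prime_iff_prime_int.mp hr).dvd_of_dvd_pow h1

lemma Al_pow_y {p m y : ℤ} (h : Reg p m y) {ρ : ℤ} {l : ℕ} (hρ : ρ ∣ y ^ l) :
    Al p m y ρ := by
  refine Al.natAbs h.N0 (Al.of_primes ρ.natAbs ?_ ?_)
  · intro h0
    have h1 : ρ = 0 := Int.natAbs_eq_zero.mp h0
    rw [h1] at hρ
    exact (pow_ne_zero l h.hy.ne') (zero_dvd_iff.mp hρ)
  · intro r hr hd
    refine Al_y h (by exact_mod_cast hr.one_le) ?_
    have h1 : (r : ℤ) ∣ y ^ l := (Int.natCast_dvd.mpr hd).trans hρ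
    exact (Nat.prime_iff_prime_int.mp hr).dvd_of_dvd_pow h1

/-- Classes related by the invariants of shift equivalence over `ℤ` are linked. -/
theorem classes {p m y : ℤ} (h : Reg p m y) {a b ρ₁ ρ₂ : ℤ} {l : ℕ}
    (h1 : ρ₁ ∣ (p - m) ^ l) (h2 : ρ₂ ∣ y ^ l) (hab : (p - m + y) ∣ ρ₂ * a - ρ₁ * b) :
    Q (ZZ p m y a) (ZZ p m y b) := by
  have q1 := Al_pow_y h h2 a
  have q2 := Al_pow_x h h1 b
  rw [ZZ_congr h.N0 (Or.inl hab)] at q1
  exact q1.trans q2.symm

end Pool.Agent.U280.IE
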