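import Pool.Agent.U280.IE.Moves

/-!
# Connectivity of the presentations of a given cone, and passage to smaller cones

`x = p - m` with `p, m ≥ 0`.
-/

set_option autoImplicit false

namespace Pool.Agent.U280.IE

open Matrix Pool.Agent.TH441.SSE2 Pool.Agent.Y321.SE2

/-- The canonical second coordinate of the first vector. -/
def tc (p m δ : ℤ) : ℤ := (p + m + 2 * δ - 2) / δ

/-- The canonical `ρ`. -/
def rc (m δ : ℤ) : ℤ := m + δ - 1

/-- The canonical `σ`. -/
def sc (p m δ : ℤ) : ℤ := δ * tc p m δ - rc m δ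

/-- The canonical presentation. -/
def XX (p m y δ L R : ℤ) : Matrix (Fin 3) (Fin 3) ℤ :=
  MM (p - m) y δ L R (sc p m δ) (rc m δ) (tc p m δ)

lemma tc_bd {p m δ : ℤ} (hδ : 1 ≤ δ) :
    p + m + δ - 1 ≤ δ * tc p m δ ∧ δ * tc p m δ ≤ p + m + 2 * δ - 2 := by
  unfold tc
  have h1 := Int.emod_add_mul_ediv (p + m + 2 * δ - 2) δ
  have h2 := Int.emod_nonneg (p + m + 2 * δ - 2) (show δ ≠ 0 by linarith)
  have h3 := Int.emod_lt_of_pos (p + m + 2 * δ - 2) (show 0 < δ by linarith)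
  constructor <;> linarith

lemma sc_bd {p m δ : ℤ} (hδ : 1 ≤ δ) : p ≤ sc p m δ ∧ sc p m δ ≤ p + δ - 1 := by
  obtain ⟨h1, h2⟩ := tc_bd (p := p) (m := m) hδ
  unfold sc rc
  constructor <;> linarith

/-- Constructor with less to check. -/
lemma Val.mk' {x y δ L R σ ρ t : ℤ} (hδ : 0 < δ) (r0 : 0 ≤ ρ) (r1 : 0 ≤ ρ + x) (s0 : 0 ≤ σ)
    (s1 : 0 ≤ σ - x) (m0 : 0 ≤ R - δ * x - δ * ρ) (m2 : 0 ≤ L - δ * σ)
    (e1 : σ + ρ = δ * t) (e2 : L + R = δ * (x + y)) : Val x y δ L R σ ρ t := by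
  refine ⟨r0, r1, s0, s1, ?_, m0, ?_, m2, e1, e2⟩
  · have h : 0 ≤ δ * t := by linarith
    exact nonneg_of_mul_nonneg_right h hδ
  · have h : 0 ≤ δ * (y - δ * t) := by
      have e : δ * (y - δ * t) = (R - δ * x - δ * ρ) + (L - δ * σ) := by
        linear_combination (-1 : ℤ) * e2 + δ * e1
      rw [e]; exact add_nonneg m0 m2
    exact nonneg_of_mul_nonneg_right h hδ

lemma canon_val {p m y δ L R : ℤ} (hp : 0 ≤ p) (hm : 0 ≤ m) (hδ : 1 ≤ δ)
    (hL : δ * (p + δ) ≤ L) (hR : δ * (p + δ) ≤ R) (e2 : L + R = δ * (p - m + y)) :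
    Val (p - m) y δ L R (sc p m δ) (rc m δ) (tc p m δ) := by
  obtain ⟨h1, h2⟩ := sc_bd (p := p) (m := m) hδ
  have hr : rc m δ = m + δ - 1 := rfl
  refine Val.mk' (by linarith) (by linarith) (by linarith) (by linarith) (by linarith) ?_ ?_
    (by unfold sc; ring) e2
  · have e : R - δ * (p - m) - δ * rc m δ = R - δ * (p + δ) + δ := by rw [hr]; ring
    linarith
  · have := mul_le_mul_of_nonneg_left h2 (show (0 : ℤ) ≤ δ by linarith)
    have e : δ * (p + δ - 1) = δ * (p + δ) - δ := by ring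
    linarith

/-- Comparable presentations are linked. -/
lemma cmp {x y δ L R σ ρ t σ' ρ' t' : ℤ} (hδ : 0 < δ) (h : Val x y δ L R σ ρ t)
    (h' : Val x y δ L R σ' ρ' t') (hσ : σ ≤ σ') (hρ : ρ ≤ ρ') :
    Q (MM x y δ L R σ ρ t) (MM x y δ L R σ' ρ' t') := by
  have ht : 0 ≤ t' - t := by
    have e : 0 ≤ δ * (t' - t) := by
      have h1 := h.e1
      have h2 := h'.e1
      linarith
    exact nonneg_of_mul_nonneg_right e hδ
  have hh : Val x y δ L R (σ + (σ' - σ)) (ρ + (ρ' - ρ)) (t + (t' - t)) := by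
    rw [add_sub_cancel, add_sub_cancel, add_sub_cancel]; exact h'
  have := move_add hδ.le h hh (by linarith) (by linarith) ht
  rw [add_sub_cancel, add_sub_cancel, add_sub_cancel] at this
  exact this.symm

/-- All presentations on a good cone are linked. -/
lemma conn {p m y δ L R σ ρ t : ℤ} (hp : 0 ≤ p) (hm : 0 ≤ m) (hδ : 1 ≤ δ)
    (hL : δ * (p + δ) ≤ L) (hR : δ * (p + 2 * δ) ≤ R)
    (h : Val (p - m) y δ L R σ ρ t) : Q (MM (p - m) y δ L R σ ρ t) (XX p m y δ L R) := by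
  have hδ0 : 0 < δ := by linarith
  have hR' : δ * (p + δ) ≤ R := by
    have : 0 ≤ δ * δ := mul_nonneg hδ0.le hδ0.le
    linarith
  have hc := canon_val hp hm hδ hL hR' h.e2
  have hr : rc m δ = m + δ - 1 := rfl
  rcases le_or_gt (sc p m δ) σ with hcase | hcase
  · obtain ⟨k, hk⟩ : ∃ k, k = (ρ - rc m δ) / δ := ⟨_, rfl⟩
    have h1 := Int.emod_add_mul_ediv (ρ - rc m δ) δ
    have h2 := Int.emod_nonneg (ρ - rc m δ) (show δ ≠ 0 by linarith)
    have h3 := Int.emod_lt_of_pos (ρ - rc m δ) hδ0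
    rw [← hk] at h1
    have b1 : rc m δ ≤ ρ - δ * k := by linarith
    have b2 : ρ - δ * k ≤ rc m δ + δ - 1 := by linarith
    have hv : Val (p - m) y δ L R σ (ρ - δ * k) (t - k) := by
      refine Val.mk' hδ0 (by linarith) (by linarith) h.s0 h.s1 ?_ h.m2
        (by have := h.e1; linear_combination this) h.e2
      have := mul_le_mul_of_nonneg_left b2 hδ0.le
      have e : δ * (rc m δ + δ - 1) = δ * (p + 2 * δ) - δ * (p - m) - 2 * δ := by
        rw [hr]; ring
      linarith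
    have q2 := cmp hδ0 hc hv hcase b1
    rcases le_or_gt 0 k with hk0 | hk0
    · have q1 := cmp hδ0 hv h le_rfl (by
        have : 0 ≤ δ * k := mul_nonneg hδ0.le hk0
        linarith)
      exact q1.symm.trans q2.symm
    · have q1 := cmp hδ0 h hv le_rfl (by
        have : δ * k ≤ 0 := mul_nonpos_of_nonneg_of_nonpos hδ0.le hk0.le
        linarith)
      exact q1.trans q2.symm
  · obtain ⟨k, hk⟩ : ∃ k, k = (rc m δ - ρ) / δ := ⟨_, rfl⟩
    have h1 := Int.emod_add_mul_ediv (rc m δ - ρ) δ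
    have h2 := Int.emod_nonneg (rc m δ - ρ) (show δ ≠ 0 by linarith)
    have h3 := Int.emod_lt_of_pos (rc m δ - ρ) hδ0
    rw [← hk] at h1
    have b1 : ρ + δ * k ≤ rc m δ := by linarith
    have b2 : m ≤ ρ + δ * k := by linarith
    have hv : Val (p - m) y δ L R σ (ρ + δ * k) (t + k) := by
      refine Val.mk' hδ0 (by linarith) (by linarith) h.s0 h.s1 ?_ h.m2
        (by have := h.e1; linear_combination this) h.e2
      have := mul_le_mul_of_nonneg_left b1 hδ0.le
      have e : δ * rc m δ = δ * (p + δ) - δ * (p - m) - δ := by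
        rw [hr]; ring
      linarith
    have q2 := cmp hδ0 hv hc hcase.le b1
    rcases le_or_gt 0 k with hk0 | hk0
    · have q1 := cmp hδ0 h hv le_rfl (by
        have : 0 ≤ δ * k := mul_nonneg hδ0.le hk0
        linarith)
      exact q1.trans q2
    · have q1 := cmp hδ0 hv h le_rfl (by
        have : δ * k ≤ 0 := mul_nonpos_of_nonneg_of_nonpos hδ0.le hk0.le
        linarith)
      exact q1.symm.trans q2

/-- Passage from a cone to a smaller one. -/
lemma jump {p m y δ' L' R' i j : ℤ} (hp : 0 ≤ p) (hm : 0 ≤ m) (hδ : 1 ≤ δ') (hi : 0 ≤ i)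
    (hj : 0 ≤ j) (e2 : L' + R' = δ' * (p - m + y))
    (hL : (δ' + i + j) * (p + δ') + i * m ≤ L') (hR : (δ' + i + j) * (p + m) ≤ R')
    (hR' : δ' * (p + 2 * δ') ≤ R')
    (hC1 : (δ' + i + j) * (p + (δ' + i + j)) ≤ L' + i * (p - m + y))
    (hC2 : (δ' + i + j) * (p + 2 * (δ' + i + j)) ≤ R' + j * (p - m + y)) :
    Q (XX p m y (δ' + i + j) (L' + i * (p - m + y)) (R' + j * (p - m + y)))
      (XX p m y δ' L' R') := by
  have hδ0 : 0 < δ' := by linarith
  have hδ1 : 0 < δ' + i + j := by linarith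
  obtain ⟨t, ht⟩ : ∃ t, t = (p + m + δ' - 1) / δ' := ⟨_, rfl⟩
  have h1 := Int.emod_add_mul_ediv (p + m + δ' - 1) δ'
  have h2 := Int.emod_nonneg (p + m + δ' - 1) (show δ' ≠ 0 by linarith)
  have h3 := Int.emod_lt_of_pos (p + m + δ' - 1) hδ0
  rw [← ht] at h1
  have b1 : p + m ≤ δ' * t := by linarith
  have b2 : δ' * t ≤ p + m + δ' - 1 := by linarith
  have ht0 : 0 ≤ t := nonneg_of_mul_nonneg_right (show 0 ≤ δ' * t by linarith) hδ0
  have c1 : (δ' + i + j) * (δ' * t - m) ≤ (δ' + i + j) * (p + δ' - 1) :=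
    mul_le_mul_of_nonneg_left (by linarith) hδ1.le
  have c2 : 0 ≤ i * p := mul_nonneg hi hp
  have c3 : 0 ≤ i * m := mul_nonneg hi hm
  have c4 : 0 ≤ j * p := mul_nonneg hj hp
  have c5 : 0 ≤ j * m := mul_nonneg hj hm
  have c6 : 0 ≤ i * t := mul_nonneg hi ht0
  have c7 : 0 ≤ j * t := mul_nonneg hj ht0
  have c8 : 0 ≤ δ' * m := mul_nonneg hδ0.le hm
  have k1 : 0 ≤ R' - (δ' + i) * (p - m) - (δ' + i + j) * m := by nlinarith
  have k2 : 0 ≤ L' + i * (p - m) - (δ' + i + j) * (δ' * t - m) := by nlinarith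
  have hs := move_shrink (x := p - m) (y := y) (δ' := δ') (L' := L') (R' := R')
    (σ' := δ' * t - m) (ρ' := m) (t := t) (i := i) (j := j) hi hj hδ0 (by ring) e2 hm
    (by linarith) (by linarith) (by linarith) ht0 k1 k2
  have k3 : 0 ≤ y - (δ' + i + j) * t := by
    have h9 : 0 ≤ δ' * (y - (δ' + i + j) * t) := by
      have : δ' * (y - (δ' + i + j) * t) = (R' - (δ' + i) * (p - m) - (δ' + i + j) * m) +
          (L' + i * (p - m) - (δ' + i + j) * (δ' * t - m)) := by
        linear_combination (-1 : ℤ) * e2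
      rw [this]; exact add_nonneg k1 k2
    exact nonneg_of_mul_nonneg_right h9 hδ0
  have k4 : 0 ≤ j * (y - (δ' + i + j) * t) := mul_nonneg hj k3
  have k5 : 0 ≤ i * (y - (δ' + i + j) * t) := mul_nonneg hi k3
  have v : Val (p - m) y (δ' + i + j) (L' + i * (p - m + y)) (R' + j * (p - m + y))
      (δ' * t - m + i * t) (m + j * t) t := by
    refine Val.mk' hδ1 (by linarith) (by linarith) (by linarith) (by linarith) ?_ ?_
      (by ring) ?_
    · have e : R' + j * (p - m + y) - (δ' + i + j) * (p - m) - (δ' + i + j) * (m + j * t) =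
        (R' - (δ' + i) * (p - m) - (δ' + i + j) * m) + j * (y - (δ' + i + j) * t) := by ring
      rw [e]; exact add_nonneg k1 k4
    · have e : L' + i * (p - m + y) - (δ' + i + j) * (δ' * t - m + i * t) =
        (L' + i * (p - m) - (δ' + i + j) * (δ' * t - m)) + i * (y - (δ' + i + j) * t) := by ring
      rw [e]; exact add_nonneg k2 k5
    · linear_combination e2
  have v' : Val (p - m) y δ' L' R' (δ' * t - m) m t := by
    refine Val.mk' hδ0 hm (by linarith) (by linarith) (by linarith) ?_ ?_ (by ring) e2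
    · have : R' - δ' * (p - m) - δ' * m = R' - δ' * p := by ring
      rw [this]
      have : 0 ≤ δ' * δ' := mul_nonneg hδ0.le hδ0.le
      linarith
    · have c9 : 0 ≤ (i + j) * (p + δ') := mul_nonneg (by linarith) (by linarith)
      have c10 : δ' * (δ' * t - m) ≤ δ' * (p + δ' - 1) :=
        mul_le_mul_of_nonneg_left (by linarith) hδ0.le
      nlinarith
  have q1 := conn hp hm hδ1 hC1 hC2 v
  have q2 := conn hp hm hδ (by nlinarith) hR' v'
  exact q1.symm.trans (hs.trans q2)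

end Pool.Agent.U280.IE
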