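import Pool.Agent.U280.IE.Class

/-!
# The positive `2 × 2` matrices of a class are linked with the presentation of the class
-/

set_option autoImplicit false

namespace Pool.Agent.U280.IE

open Matrix Pool.Agent.TH441.SSE2 Pool.Agent.Y321.SE2

lemma Z_nn : NN (!![2, 1, 0; 1, 1, 1; 0, 1, 2] : Matrix (Fin 3) (Fin 3) ℤ) := by
  intro k l; fin_cases k <;> fin_cases l <;> simp

lemma ends_pos {x y r j : ℤ} (hx : 1 ≤ x) (hr : 1 ≤ r) (hj : x ≤ j * r) (hj' : j * r < x + r)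
    (hj1 : 1 ≤ j) (hN : 16 * x + 16 ≤ x + y) (hr2 : 2 * r ≤ x + y) :
    Q (K1 x 0 r y j)ᵀ (YY x 0 y r) := by
  have h := (fan_level x 0 r y j 1 hx hr hj hj' le_rfl hj1 (by
    rw [abs_zero]; linarith)).transpose
  obtain ⟨A, hA⟩ : ∃ A, A = (x + 1) / 2 := ⟨_, rfl⟩
  rw [← hA, Int.ediv_one, add_sub_cancel_right] at h
  have a1 : x ≤ 2 * A := by omega
  have a2 : 2 * A ≤ x + 1 := by omega
  obtain ⟨F, hF⟩ : ∃ F : Matrix (Fin 3) (Fin 3) ℤ, F = !![0, 0, A;
    2 * A - x, y - r - 4 * A + x, 0; x - A, r + 2 * A - x, 0] := ⟨_, rfl⟩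
  have hFn : NN F := by
    rw [hF]; intro k l; fin_cases k <;> fin_cases l <;> simp <;> linarith
  have e1 : (W x 0 r y 1 A A)ᵀ = F * !![2, 1, 0; 1, 1, 1; 0, 1, 2] := by
    rw [hF]
    ext k l; fin_cases k <;> fin_cases l <;>
      simp [W, Ur, Vc, Matrix.mul_apply, Fin.sum_univ_succ] <;> ring
  have e2 : (!![2, 1, 0; 1, 1, 1; 0, 1, 2] : Matrix (Fin 3) (Fin 3) ℤ) * F =
      MM (x - 0) y 2 (x - 0 + y + r) (x - 0 + y - r) x (2 * A - x) A := by
    rw [hF]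
    ext k l; fin_cases k <;> fin_cases l <;>
      simp [MM, Matrix.mul_apply, Fin.sum_univ_succ] <;> ring
  have q1 : Q (W x 0 r y 1 A A)ᵀ
      (MM (x - 0) y 2 (x - 0 + y + r) (x - 0 + y - r) x (2 * A - x) A) :=
    Q.of_elem F _ hFn Z_nn e1 e2.symm
  have q2 := conn (p := x) (m := 0) (y := y) (δ := 2) (L := x - 0 + y + r)
    (R := x - 0 + y - r) (σ := x) (ρ := 2 * A - x) (t := A) (by linarith) le_rfl (by norm_num)
    (by linarith) (by linarith)
    (Val.mk' (by norm_num) (by linarith) (by linarith) (by linarith) (by linarith)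
      (by linarith) (by linarith) (by ring) (by ring))
  exact h.trans (q1.trans q2)

lemma ends_neg {z y r j : ℤ} (hz : 1 ≤ z) (hr : 1 ≤ r) (hj : z ≤ j * r) (hj' : j * r < z + r)
    (hj1 : 1 ≤ j) (hN : 16 * z + 16 ≤ y - z) (hr2 : 2 * r ≤ y - z) :
    Q (K1 (-z) 0 r y j)ᵀ (YY 0 z y r) := by
  have h := (fan_level_neg z 0 r y j 1 hz hr hj hj' le_rfl hj1 (by
    rw [abs_zero]; linarith)).transpose
  obtain ⟨A, hA⟩ : ∃ A, A = (z + 1) / 2 := ⟨_, rfl⟩
  rw [← hA, Int.ediv_one, add_sub_cancel_right] at h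
  have a1 : z ≤ 2 * A := by omega
  have a2 : 2 * A ≤ z + 1 := by omega
  obtain ⟨F, hF⟩ : ∃ F : Matrix (Fin 3) (Fin 3) ℤ, F = !![A, 0, 0;
    0, y - r - 4 * A + z, 2 * A - z; 0, r + 2 * A - z, z - A] := ⟨_, rfl⟩
  have hFn : NN F := by
    rw [hF]; intro k l; fin_cases k <;> fin_cases l <;> simp <;> linarith
  have e1 : (W (-z) 0 r y 1 (-A) A)ᵀ = F * !![2, 1, 0; 1, 1, 1; 0, 1, 2] := by
    rw [hF]
    ext k l; fin_cases k <;> fin_cases l <;>
      simp [W, Ur, Vc, Matrix.mul_apply, Fin.sum_univ_succ] <;> ring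
  have e2 : (!![2, 1, 0; 1, 1, 1; 0, 1, 2] : Matrix (Fin 3) (Fin 3) ℤ) * F =
      MM (0 - z) y 2 (0 - z + y + r) (0 - z + y - r) 0 (2 * A) A := by
    rw [hF]
    ext k l; fin_cases k <;> fin_cases l <;>
      simp [MM, Matrix.mul_apply, Fin.sum_univ_succ] <;> ring
  have q1 : Q (W (-z) 0 r y 1 (-A) A)ᵀ
      (MM (0 - z) y 2 (0 - z + y + r) (0 - z + y - r) 0 (2 * A) A) :=
    Q.of_elem F _ hFn Z_nn e1 e2.symm
  have q2 := conn (p := 0) (m := z) (y := y) (δ := 2) (L := 0 - z + y + r)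
    (R := 0 - z + y - r) (σ := 0) (ρ := 2 * A) (t := A) le_rfl (by linarith) (by norm_num)
    (by linarith) (by linarith)
    (Val.mk' (by norm_num) (by linarith) (by linarith) (by linarith) (by linarith)
      (by linarith) (by linarith) (by ring) (by ring))
  exact h.trans (q1.trans q2)

end Pool.Agent.U280.IE
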