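import Pool.Agent.U280.IE.Conn

/-!
# Multiplication of the class by a divisor of `x` or `y`
-/

set_option autoImplicit false

namespace Pool.Agent.U280.IE

open Matrix Pool.Agent.TH441.SSE2 Pool.Agent.Y321.SE2

/-- The canonical presentation of the class `B` on the cone `[-1, 1]`. -/
def YY (p m y B : ℤ) : Matrix (Fin 3) (Fin 3) ℤ :=
  XX p m y 2 (p - m + y + B) (p - m + y - B)

lemma XX_congr {p m y δ L R δ' L' R' : ℤ} (h1 : δ = δ') (h2 : L = L') (h3 : R = R') :
    XX p m y δ L R = XX p m y δ' L' R' := by rw [h1, h2, h3]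

lemma YY_refl {p m y B : ℤ} (hp : 0 ≤ p) (hm : 0 ≤ m) (hN : 8 * (p + m) + 16 ≤ p - m + y)
    (hB1 : 2 * B ≤ p - m + y) (hB2 : -(2 * B) ≤ p - m + y) :
    Q (YY p m y B) (YY p m y (-B)) := by
  have h := canon_val (p := p) (m := m) (y := y) (δ := 2) (L := p - m + y + B)
    (R := p - m + y - B) hp hm (by norm_num) (by linarith) (by linarith) (by ring)
  have q1 := move_refl h
  obtain ⟨a1, a2, a3, a4, a5, a6, a7, a8, a9, a10⟩ := h
  have q2 := conn (p := p) (m := m) (y := y) (δ := 2) (L := p - m + y - B)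
    (R := p - m + y + B) (σ := rc m 2 + (p - m)) (ρ := sc p m 2 - (p - m)) (t := tc p m 2)
    hp hm (by norm_num) (by linarith) (by linarith)
    (Val.mk' (by norm_num) a4 (by linarith) a2 (by linarith) (by linarith) (by linarith)
      (by linarith) (by ring))
  have q3 := q1.trans q2
  have e : YY p m y (-B) = XX p m y 2 (p - m + y - B) (p - m + y + B) :=
    XX_congr rfl (by ring) (by ring)
  rw [e]
  exact q3

lemma qlink {p m y B q : ℤ} (hp : 0 ≤ p) (hm : 0 ≤ m) (hq : 1 ≤ q)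
    (hN : 16 * (p + m) + 16 * q ≤ p - m + y)
    (hB1 : 2 * B ≤ p - m + y) (hB2 : -(2 * B) ≤ p - m + y) (hd : q ∣ y ∨ q ∣ p - m) :
    Q (YY p m y B) (XX p m y (q * 2) (q * (p - m + y + B)) (q * (p - m + y - B))) := by
  have hq0 : 0 < q := by linarith
  obtain ⟨τ, hτ⟩ : ∃ τ, τ = (p + m + q - 1) / q := ⟨_, rfl⟩
  have h1 := Int.emod_add_mul_ediv (p + m + q - 1) q
  have h2 := Int.emod_nonneg (p + m + q - 1) (show q ≠ 0 by linarith)
  have h3 := Int.emod_lt_of_pos (p + m + q - 1) hq0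
  rw [← hτ] at h1
  have b1 : p + m ≤ q * τ := by linarith
  have b2 : q * τ ≤ p + m + q - 1 := by linarith
  have hτ0 : 0 ≤ τ := nonneg_of_mul_nonneg_right (show 0 ≤ q * τ by linarith) hq0
  have v : Val (p - m) y 2 (p - m + y + B) (p - m + y - B) (q * τ) (q * τ) (q * τ) :=
    Val.mk' (by norm_num) (by linarith) (by linarith) (by linarith) (by linarith) (by linarith)
      (by linarith) (by ring) (by ring)
  have c1 : 0 ≤ q * (p - m + y - B - 2 * (p - m) - 2 * (q * τ)) :=
    mul_nonneg hq0.le (by linarith)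
  have c2 : 0 ≤ q * (p - m + y + B - 2 * (q * τ)) := mul_nonneg hq0.le (by linarith)
  have v' : Val (p - m) y (q * 2) (q * (p - m + y + B)) (q * (p - m + y - B)) (q * τ) (q * τ)
      τ :=
    Val.mk' (by linarith) (by linarith) (by linarith) (by linarith) (by linarith) (by linarith)
      (by linarith) (by ring) (by ring)
  have c3 : 0 ≤ q * (p - m + y + B - 2 * (p + q * 2)) := mul_nonneg hq0.le (by linarith)
  have c4 : 0 ≤ q * (p - m + y - B - 2 * (p + 2 * (q * 2))) := mul_nonneg hq0.le (by linarith)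
  have q1 := conn hp hm (by norm_num) (by linarith) (by linarith) v
  have q2 := conn hp hm (by linarith) (by linarith) (by linarith) v'
  have q3 : Q (MM (p - m) y 2 (p - m + y + B) (p - m + y - B) (q * τ) (q * τ) (q * τ))
      (MM (p - m) y (q * 2) (q * (p - m + y + B)) (q * (p - m + y - B)) (q * τ) (q * τ) τ) := by
    rcases hd with hd | ⟨w, hw⟩
    · exact move_qy hq0.le hd v hq0 hτ0
    · rw [hw] at v ⊢
      exact move_qx hq0 v hτ0
  exact q1.symm.trans (q3.trans q2)

lemma level {p m y B : ℤ} (hp : 0 ≤ p) (hm : 0 ≤ m)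
    (hB1 : 2 * B ≤ p - m + y) (hB2 : -(2 * B) ≤ p - m + y) (n : ℕ) :
    16 * (p + m) + 16 * ((n : ℤ) + 1) ≤ p - m + y →
    Q (XX p m y (2 * ((n : ℤ) + 1)) (((n : ℤ) + 1) * (p - m + y) + B)
      (((n : ℤ) + 1) * (p - m + y) - B)) (YY p m y B) := by
  induction n with
  | zero =>
    intro _
    have e : XX p m y (2 * (((0 : ℕ) : ℤ) + 1)) ((((0 : ℕ) : ℤ) + 1) * (p - m + y) + B)
      ((((0 : ℕ) : ℤ) + 1) * (p - m + y) - B) = YY p m y B :=
      XX_congr (by norm_num) (by push_cast; ring) (by push_cast; ring)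
    rw [e]
    exact Q.refl _
  | succ k ih =>
    intro hN
    push_cast at hN ⊢
    obtain ⟨n, hn⟩ : ∃ n : ℤ, n = (k : ℤ) + 1 := ⟨_, rfl⟩
    have hn1 : 1 ≤ n := by omega
    rw [← hn] at ih hN ⊢
    have ih' := ih (by linarith)
    obtain ⟨N, hNd⟩ : ∃ N, N = p - m + y := ⟨_, rfl⟩
    rw [← hNd] at hN hB1 hB2
    have g : (2 * n - 1) * (16 * (p + m) + 16 * (n + 1)) ≤ (2 * n - 1) * N :=
      mul_le_mul_of_nonneg_left hN (by linarith)
    have g1 : 0 ≤ (n - 1) * p := mul_nonneg (by linarith) hp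
    have g2 : 0 ≤ (n - 1) * m := mul_nonneg (by linarith) hm
    have g3 : 0 ≤ (n - 1) * (n - 1) := mul_nonneg (by linarith) (by linarith)
    have hj := jump (p := p) (m := m) (y := y) (δ' := 2 * n) (L' := n * N + B)
      (R' := n * N - B) (i := 1) (j := 1) hp hm (by linarith) (by norm_num) (by norm_num)
      (by rw [hNd]; ring) (by nlinarith) (by nlinarith) (by nlinarith)
      (by rw [← hNd]; nlinarith) (by rw [← hNd]; nlinarith)
    have e1 : XX p m y (2 * (n + 1)) ((n + 1) * (p - m + y) + B) ((n + 1) * (p - m + y) - B) =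
        XX p m y (2 * n + 1 + 1) (n * N + B + 1 * (p - m + y))
          (n * N - B + 1 * (p - m + y)) :=
      XX_congr (by ring) (by rw [hNd]; ring) (by rw [hNd]; ring)
    rw [e1]
    rw [hNd] at hj ⊢
    exact hj.trans ih'

/-- The link `B ↦ q B`. -/
lemma link {p m y B q k b : ℤ} (hp : 0 ≤ p) (hm : 0 ≤ m) (hq : 1 ≤ q)
    (hN : 16 * (p + m) + 16 * q ≤ p - m + y)
    (hB1 : 2 * B ≤ p - m + y) (hB2 : -(2 * B) ≤ p - m + y) (hd : q ∣ y ∨ q ∣ p - m)
    (hk : q * B = k * (p - m + y) + b) (hk1 : 2 * k ≤ q) (hk2 : -(2 * k) ≤ q)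
    (hb1 : 2 * b ≤ p - m + y) (hb2 : -(2 * b) ≤ p - m + y) :
    Q (YY p m y B) (YY p m y b) := by
  have h0 := qlink hp hm hq hN hB1 hB2 hd
  obtain ⟨N, hNd⟩ : ∃ N, N = p - m + y := ⟨_, rfl⟩
  have hlev : ∀ n : ℤ, 1 ≤ n → n ≤ q →
      Q (XX p m y (2 * n) (n * (p - m + y) + b) (n * (p - m + y) - b)) (YY p m y b) := by
    intro n hn1 hnq
    have := level (p := p) (m := m) (y := y) (B := b) hp hm hb1 hb2 (n - 1).toNat (by
      rw [Int.toNat_of_nonneg (by linarith)]; linarith)
    rw [Int.toNat_of_nonneg (by linarith)] at this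
    have e : n - 1 + 1 = n := by ring
    rw [e] at this
    exact this
  rw [← hNd] at hN hB1 hB2 hb1 hb2 hk h0
  have g0 : q * (16 * (p + m) + 16 * q) ≤ q * N := mul_le_mul_of_nonneg_left hN (by linarith)
  have gB1 : q * (2 * B) ≤ q * N := mul_le_mul_of_nonneg_left hB1 (by linarith)
  have gB2 : q * (-(2 * B)) ≤ q * N := mul_le_mul_of_nonneg_left hB2 (by linarith)
  have gqp : 0 ≤ q * p := mul_nonneg (by linarith) hp
  have gqm : 0 ≤ q * m := mul_nonneg (by linarith) hm
  have gqq : 0 ≤ q * q := mul_nonneg (by linarith) (by linarith)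
  have key : ∀ n : ℤ, 1 ≤ n → q ≤ 2 * n → n ≤ q →
      (2 * q) * (p + 2 * n) + 2 * (q - n) * m ≤ n * N + b ∧
      (2 * q) * (p + m) ≤ n * N - b ∧ 2 * n * (p + 2 * (2 * n)) ≤ n * N - b := by
    intro n hn1 hn2 hnq
    have g1 : (2 * n - 1) * (16 * (p + m) + 16 * q) ≤ (2 * n - 1) * N :=
      mul_le_mul_of_nonneg_left hN (by linarith)
    have g2 : 0 ≤ (2 * n - q) * (p + m) := mul_nonneg (by linarith) (by linarith)
    have g3 : 0 ≤ (n - 1) * (p + m) := mul_nonneg (by linarith) (by linarith)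
    have g5 : 0 ≤ (n - 1) * q := mul_nonneg (by linarith) (by linarith)
    have g6 : 0 ≤ (q - n) * n := mul_nonneg (by linarith) (by linarith)
    have gnp : 0 ≤ n * p := mul_nonneg (by linarith) hp
    have gnm : 0 ≤ n * m := mul_nonneg (by linarith) hm
    have gnq : 0 ≤ n * q := mul_nonneg (by linarith) (by linarith)
    refine ⟨?_, ?_, ?_⟩
    · linarith
    · linarith
    · linarith
  have hc1 : (2 * q) * (p + 2 * q) ≤ q * (N + B) := by linarith
  have hc2 : (2 * q) * (p + 2 * (2 * q)) ≤ q * (N - B) := by linarith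
  rcases le_or_gt 0 k with hk0 | hk0
  · obtain ⟨n, hn⟩ : ∃ n, n = q - k := ⟨_, rfl⟩
    have hn1 : 1 ≤ n := by omega
    obtain ⟨k1, k2, k3⟩ := key n hn1 (by linarith) (by linarith)
    obtain rfl : k = q - n := by linarith
    have t1 : n * N + b + 2 * (q - n) * N = q * (N + B) := by linear_combination -hk
    have t2 : n * N - b + 0 * N = q * (N - B) := by linear_combination hk
    have t3 : 2 * n + 2 * (q - n) + 0 = 2 * q := by ring
    have hj := jump (p := p) (m := m) (y := y) (δ' := 2 * n) (L' := n * N + b)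
      (R' := n * N - b) (i := 2 * (q - n)) (j := 0) hp hm (by linarith) (by linarith) le_rfl
      (by rw [hNd]; ring) (by rw [t3]; exact k1) (by rw [t3]; exact k2) k3
      (by rw [← hNd, t1, t3]; exact hc1) (by rw [← hNd, t2, t3]; exact hc2)
    rw [← hNd, t1, t2, t3] at hj
    have h1 := hlev n hn1 (by linarith)
    rw [← hNd] at h1
    rw [mul_comm q 2] at h0
    exact h0.trans (hj.trans h1)
  · obtain ⟨n, hn⟩ : ∃ n, n = q + k := ⟨_, rfl⟩
    have hn1 : 1 ≤ n := by omega
    obtain ⟨k1, k2, k3⟩ := key n hn1 (by linarith) (by linarith)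
    obtain rfl : k = n - q := by linarith
    have hqn : 0 ≤ 2 * (q - n) * m := mul_nonneg (by linarith) hm
    have t1 : n * N + b + 0 * N = q * (N + B) := by linear_combination -hk
    have t2 : n * N - b + 2 * (q - n) * N = q * (N - B) := by linear_combination hk
    have t3 : 2 * n + 0 + 2 * (q - n) = 2 * q := by ring
    have hj := jump (p := p) (m := m) (y := y) (δ' := 2 * n) (L' := n * N + b)
      (R' := n * N - b) (i := 0) (j := 2 * (q - n)) hp hm (by linarith) le_rfl (by linarith)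
      (by rw [hNd]; ring) (by rw [t3]; linarith) (by rw [t3]; exact k2) k3
      (by rw [← hNd, t1, t3]; exact hc1) (by rw [← hNd, t2, t3]; exact hc2)
    rw [← hNd, t1, t2, t3] at hj
    have h1 := hlev n hn1 (by linarith)
    rw [← hNd] at h1
    rw [mul_comm q 2] at h0
    exact h0.trans (hj.trans h1)

end Pool.Agent.U280.IE
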