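import Pool.Agent.U280.IE.Tri

/-!
# Shift equivalence over `ℤ`, the arithmetic of the classes and the main theorem
-/

set_option autoImplicit false

namespace Pool.Agent.U280.IE

open Matrix Pool.Agent.TH441.SSE2 Pool.Agent.Y321.SE2

lemma PP_pow (x y b : ℤ) (l : ℕ) : ∃ c, PP x y b ^ l = !![(-x) ^ l, c; 0, y ^ l] := by
  induction l with
  | zero =>
    refine ⟨0, ?_⟩
    rw [pow_zero, pow_zero, pow_zero]
    ext i j; fin_cases i <;> fin_cases j <;> simp
  | succ l ih =>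
    obtain ⟨c, hc⟩ := ih
    refine ⟨(-x) ^ l * b + c * y, ?_⟩
    rw [pow_succ, hc]
    ext i j; fin_cases i <;> fin_cases j <;>
      simp [PP, Matrix.mul_apply, Fin.sum_univ_two, pow_succ]

/-- Shift equivalence over `ℤ` relates the classes. -/
lemma arith {A B R S : Matrix (Fin 2) (Fin 2) ℤ} {x y a b : ℤ} {l : ℕ} (hN : x + y ≠ 0)
    (hA : Sim A (PP x y a)) (hB : Sim B (PP x y b)) (hAR : A * R = R * B)
    (hSA : S * A = B * S) (hRS : A ^ l = R * S) :
    ∃ ρ₁ ρ₂ : ℤ, ρ₁ ∣ (-x) ^ l ∧ ρ₂ ∣ y ^ l ∧ (x + y) ∣ ρ₂ * a - ρ₁ * b := by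
  obtain ⟨U, hU, hUA⟩ := hA
  obtain ⟨V, hV, hVB⟩ := hB
  obtain ⟨u1, u2⟩ := inv_mul_of_det_one hU
  obtain ⟨v1, v2⟩ := inv_mul_of_det_one hV
  have hBV : B * V⁻¹ = V⁻¹ * PP x y b := by
    calc B * V⁻¹ = V⁻¹ * (V * B) * V⁻¹ := by rw [← Matrix.mul_assoc, v1, Matrix.one_mul]
      _ = V⁻¹ * PP x y b * (V * V⁻¹) := by rw [hVB]; simp only [Matrix.mul_assoc]
      _ = _ := by rw [v2, Matrix.mul_one]
  have hAU : A * U⁻¹ = U⁻¹ * PP x y a := by
    calc A * U⁻¹ = U⁻¹ * (U * A) * U⁻¹ := by rw [← Matrix.mul_assoc, u1, Matrix.one_mul]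
      _ = U⁻¹ * PP x y a * (U * U⁻¹) := by rw [hUA]; simp only [Matrix.mul_assoc]
      _ = _ := by rw [u2, Matrix.mul_one]
  obtain ⟨R', hR'⟩ : ∃ R', R' = U * R * V⁻¹ := ⟨_, rfl⟩
  obtain ⟨S', hS'⟩ : ∃ S', S' = V * S * U⁻¹ := ⟨_, rfl⟩
  have e1 : PP x y a * R' = R' * PP x y b := by
    calc PP x y a * R' = (PP x y a * U) * R * V⁻¹ := by rw [hR']; simp only [Matrix.mul_assoc]
      _ = U * (A * R) * V⁻¹ := by rw [← hUA]; simp only [Matrix.mul_assoc]
      _ = U * R * (B * V⁻¹) := by rw [hAR]; simp only [Matrix.mul_assoc]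
      _ = R' * PP x y b := by rw [hBV, hR']; simp only [Matrix.mul_assoc]
  have e2 : PP x y b * S' = S' * PP x y a := by
    calc PP x y b * S' = (PP x y b * V) * S * U⁻¹ := by rw [hS']; simp only [Matrix.mul_assoc]
      _ = V * (B * S) * U⁻¹ := by rw [← hVB]; simp only [Matrix.mul_assoc]
      _ = V * S * (A * U⁻¹) := by rw [← hSA]; simp only [Matrix.mul_assoc]
      _ = S' * PP x y a := by rw [hAU, hS']; simp only [Matrix.mul_assoc]
  have e3 : R' * S' = PP x y a ^ l := by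
    have h1 : PP x y a ^ l * U = U * A ^ l := pow_intertwine hUA.symm l
    calc R' * S' = U * R * (V⁻¹ * V) * S * U⁻¹ := by
          rw [hR', hS']; simp only [Matrix.mul_assoc]
      _ = U * (R * S) * U⁻¹ := by rw [v1, Matrix.mul_one]; simp only [Matrix.mul_assoc]
      _ = PP x y a ^ l * (U * U⁻¹) := by rw [← hRS, ← h1]; simp only [Matrix.mul_assoc]
      _ = _ := by rw [u2, Matrix.mul_one]
  obtain ⟨r00, r01, r10, r11, hR⟩ : ∃ a b c d : ℤ, R' = !![a, b; c, d] :=
    ⟨_, _, _, _, Matrix.eta_fin_two R'⟩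
  obtain ⟨s00, s01, s10, s11, hS⟩ : ∃ a b c d : ℤ, S' = !![a, b; c, d] :=
    ⟨_, _, _, _, Matrix.eta_fin_two S'⟩
  obtain ⟨c, hc⟩ := PP_pow x y a l
  rw [hR] at e1
  rw [hS] at e2
  rw [hR, hS, hc] at e3
  have a10 := congrFun (congrFun e1 1) 0
  have a01 := congrFun (congrFun e1 0) 1
  have b10 := congrFun (congrFun e2 1) 0
  have c00 := congrFun (congrFun e3 0) 0
  have c11 := congrFun (congrFun e3 1) 1
  simp [PP, Matrix.mul_apply, Fin.sum_univ_two] at a10 a01 b10 c00 c11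
  have z1 : r10 = 0 := by
    have : (x + y) * r10 = 0 := by linarith
    rcases mul_eq_zero.mp this with h | h
    · exact absurd h hN
    · exact h
  have z2 : s10 = 0 := by
    have : (x + y) * s10 = 0 := by linarith
    rcases mul_eq_zero.mp this with h | h
    · exact absurd h hN
    · exact h
  rw [z2, mul_zero, add_zero] at c00
  rw [z1, zero_mul, zero_add] at c11
  exact ⟨r00, r11, ⟨s00, c00.symm⟩, ⟨s11, c11.symm⟩, ⟨r01, by linarith⟩⟩

/-- Trace and determinant are invariants. -/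
lemma inv_se {A B R S : Matrix (Fin 2) (Fin 2) ℤ} {l : ℕ} (hdet : A.det ≠ 0)
    (hAR : A * R = R * B) (hRS : A ^ l = R * S) : B.trace = A.trace ∧ B.det = A.det := by
  have hR : R.det ≠ 0 := by
    intro h
    have h1 := congrArg Matrix.det hRS
    rw [Matrix.det_mul, h, zero_mul, Matrix.det_pow] at h1
    exact pow_ne_zero l hdet h1
  constructor
  · have h1 : R.adjugate * A * R = R.det • B := by
      rw [Matrix.mul_assoc, hAR, ← Matrix.mul_assoc, Matrix.adjugate_mul, Matrix.smul_mul,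
        Matrix.one_mul]
    have h2 : (R.adjugate * A * R).trace = R.det * A.trace := by
      rw [Matrix.trace_mul_cycle, Matrix.mul_adjugate, Matrix.smul_mul, Matrix.one_mul,
        Matrix.trace_smul, smul_eq_mul]
    rw [h1, Matrix.trace_smul, smul_eq_mul] at h2
    exact mul_left_cancel₀ hR h2
  · have h1 := congrArg Matrix.det hAR
    rw [Matrix.det_mul, Matrix.det_mul, mul_comm] at h1
    exact (mul_left_cancel₀ hR h1).symm

lemma reg_pos {x y : ℤ} (hx : 1 ≤ x) (hxy : x ≤ y) (hq : 500 * (x * y) ≤ (y - x) ^ 2) :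
    Reg x 0 y ∧ x < y := by
  have hlt : x < y := by
    rcases hxy.lt_or_eq with h | h
    · exact h
    · rw [h, sub_self] at hq
      have : 0 < y * y := mul_pos (by linarith) (by linarith)
      linarith
  have h1 : 500 * x ≤ y := by
    have h2 : (y - x) ^ 2 ≤ y * y := by
      rw [pow_two]; exact mul_le_mul (by linarith) (by linarith) (by linarith) (by linarith)
    have h3 : y * (500 * x) ≤ y * y := by linarith
    exact le_of_mul_le_mul_left h3 (by linarith)
  refine ⟨⟨by linarith, le_rfl, by linarith, by linarith, ?_⟩, hlt⟩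
  intro q hq0 hq1
  rcases hq1 with hq1 | hq1
  · linarith
  · by_contra hne
    push Not at hne
    have h4 : 485 * y < 8000 * q := by linarith
    have h5 : (485 * y) * (485 * y) < (8000 * q) * (8000 * q) :=
      mul_self_lt_mul_self (by linarith) h4
    have h6 : 500 * y ≤ y * y := mul_le_mul_of_nonneg_right (by linarith) (by linarith)
    nlinarith

lemma reg_neg {z y : ℤ} (hz : 1 ≤ z) (hzy : z ≤ y) (hq : 500 * (z * y) ≤ (y + z) ^ 2) :
    Reg 0 z y := by
  have h1 : 497 * z ≤ y := by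
    have h2 : z * z ≤ z * y := mul_le_mul_of_nonneg_left hzy (by linarith)
    have h3 : y * (497 * z) ≤ y * y := by nlinarith
    exact le_of_mul_le_mul_left h3 (by linarith)
  refine ⟨le_rfl, by linarith, by linarith, by linarith, ?_⟩
  intro q hq0 hq1
  rcases hq1 with hq1 | hq1
  · linarith
  · by_contra hne
    push Not at hne
    have h4 : 480 * y < 7952 * q := by linarith
    have h5 : (480 * y) * (480 * y) < (7952 * q) * (7952 * q) :=
      mul_self_lt_mul_self (by linarith) h4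
    have h6 : 497 * y ≤ y * y := mul_le_mul_of_nonneg_right (by linarith) (by linarith)
    nlinarith

/-- From the classes to a chain. -/
theorem Q_of_arith {A B : Matrix (Fin 2) (Fin 2) ℤ} {x y a b ρ₁ ρ₂ : ℤ} {l : ℕ}
    (hA : NN A) (hB : NN B) (hA1 : 1 ≤ A 0 1) (hA2 : 1 ≤ A 1 0) (hB1 : 1 ≤ B 0 1)
    (hB2 : 1 ≤ B 1 0) (hx : x ≠ 0) (hxy : |x| ≤ y) (hq : 500 * |x * y| ≤ (y - x) ^ 2)
    (ha : Sim A (PP x y a)) (hb : Sim B (PP x y b)) (h1 : ρ₁ ∣ x ^ l) (h2 : ρ₂ ∣ y ^ l)
    (hab : (x + y) ∣ ρ₂ * a - ρ₁ * b) : Q A B := by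
  have hy : 0 < y := lt_of_lt_of_le (abs_pos.mpr hx) hxy
  rcases lt_or_gt_of_ne hx with h | h
  · obtain ⟨z, hz⟩ : ∃ z, z = -x := ⟨_, rfl⟩
    obtain rfl : x = -z := by rw [hz]; ring
    rw [abs_of_neg h] at hxy
    have hzy : (-z) * y < 0 := mul_neg_of_neg_of_pos h hy
    rw [abs_of_neg hzy] at hq
    have hz1 : 1 ≤ z := by linarith
    have e : y - -z = y + z := by ring
    rw [e] at hq
    have hreg := reg_neg (z := z) (y := y) hz1 (by linarith) (by linarith)
    have q1 := endp_neg (z := z) (y := y) (b := a) hz1 hreg (by linarith) hA1 hA2 ha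
    have q2 := endp_neg (z := z) (y := y) (b := b) hz1 hreg (by linarith) hB1 hB2 hb
    have q3 := classes hreg (a := a) (b := b) (ρ₁ := ρ₁) (ρ₂ := ρ₂) (l := l)
      (by rw [zero_sub]; exact h1) h2 (by rw [zero_sub]; exact hab)
    exact q1.trans (q3.trans q2.symm)
  · rw [abs_of_pos h] at hxy
    have hxy0 : 0 < x * y := mul_pos h hy
    rw [abs_of_pos hxy0] at hq
    obtain ⟨hreg, hlt⟩ := reg_pos (by linarith) hxy hq
    have q1 := endp_pos (b := a) (by linarith) hreg hq hlt hA hA1 hA2 ha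
    have q2 := endp_pos (b := b) (by linarith) hreg hq hlt hB hB1 hB2 hb
    have q3 := classes hreg (a := a) (b := b) (ρ₁ := ρ₁) (ρ₂ := ρ₂) (l := l)
      (by rw [sub_zero]; exact h1) h2 (by rw [sub_zero]; exact hab)
    exact q1.trans (q3.trans q2.symm)

end Pool.Agent.U280.IE
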