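import Pool.Agent.Y321.SEP.TransP

/-!
# Three-vector presentations of `[[-x, b], [0, y]]` on wide cones

The cone with slopes in `[α, β]`, `δ = β - α`, `L = b - α N`, `R = β N - b`, `N = x + y`; the
presentation matrix depends only on `δ, L, R` and on the first vector `(s, t)`, through
`σ = s - α t` and `ρ = β t - s`.
-/

set_option autoImplicit false

namespace Pool.Agent.U280.IE

open Matrix Pool.Agent.TH441.SSE2 Pool.Agent.Y321.SE2

/-- The presentation matrix. -/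
def MM (x y δ L R σ ρ t : ℤ) : Matrix (Fin 3) (Fin 3) ℤ :=
  !![ρ, R - δ * x - δ * ρ, ρ + x; t, y - δ * t, t; σ, L - δ * σ, σ - x]

/-- The presentation is nonnegative (and the parameters fit). -/
structure Val (x y δ L R σ ρ t : ℤ) : Prop where
  r0 : 0 ≤ ρ
  r1 : 0 ≤ ρ + x
  s0 : 0 ≤ σ
  s1 : 0 ≤ σ - x
  t0 : 0 ≤ t
  m0 : 0 ≤ R - δ * x - δ * ρ
  m1 : 0 ≤ y - δ * t
  m2 : 0 ≤ L - δ * σ
  e1 : σ + ρ = δ * t
  e2 : L + R = δ * (x + y)

/-- Adding a vector of the cone to the first vector. -/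
lemma move_add {x y δ L R σ ρ t σ' ρ' t' : ℤ} (hδ : 0 ≤ δ) (h : Val x y δ L R σ ρ t)
    (h' : Val x y δ L R (σ + σ') (ρ + ρ') (t + t')) (hσ : 0 ≤ σ') (hρ : 0 ≤ ρ')
    (ht : 0 ≤ t') : Q (MM x y δ L R (σ + σ') (ρ + ρ') (t + t')) (MM x y δ L R σ ρ t) := by
  obtain ⟨a1, a2, a3, a4, a5, a6, a7, a8, a9, a10⟩ := h
  obtain ⟨b1, b2, b3, b4, b5, b6, b7, b8, b9, b10⟩ := h'
  have e : σ' + ρ' = δ * t' := by linarith
  obtain ⟨K, hK⟩ : ∃ K : Matrix (Fin 3) (Fin 4) ℤ, K = !![ρ, ρ', R - δ * x - δ * (ρ + ρ'), ρ + x;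
    t, t', y - δ * (t + t'), t; σ, σ', L - δ * (σ + σ'), σ - x] := ⟨_, rfl⟩
  have hKn : NN K := by
    rw [hK]; intro i j; fin_cases i <;> fin_cases j <;> simp <;> linarith
  have e1 : Q (K * (!![1, 0, 0; 1, 0, 1; 0, 1, 0; 0, 0, 1] : Matrix (Fin 4) (Fin 3) ℤ))
      ((!![1, 0, 0; 1, 0, 1; 0, 1, 0; 0, 0, 1] : Matrix (Fin 4) (Fin 3) ℤ) * K) := by
    refine Q.of_elem _ _ hKn ?_ rfl rfl
    intro i j; fin_cases i <;> fin_cases j <;> simp
  have e2 : Q ((!![1, 0, 0; 0, δ, 0; 0, 1, 0; 0, 0, 1] : Matrix (Fin 4) (Fin 3) ℤ) * K)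
      (K * (!![1, 0, 0; 0, δ, 0; 0, 1, 0; 0, 0, 1] : Matrix (Fin 4) (Fin 3) ℤ)) := by
    refine Q.of_elem _ _ ?_ hKn rfl rfl
    intro i j; fin_cases i <;> fin_cases j <;> simp [hδ]
  have e3 : (!![1, 0, 0; 1, 0, 1; 0, 1, 0; 0, 0, 1] : Matrix (Fin 4) (Fin 3) ℤ) * K =
      (!![1, 0, 0; 0, δ, 0; 0, 1, 0; 0, 0, 1] : Matrix (Fin 4) (Fin 3) ℤ) * K := by
    rw [hK]
    ext i j; fin_cases i <;> fin_cases j <;>
      simp [Matrix.mul_apply, Fin.sum_univ_succ] <;> first | linarith | skip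
    linear_combination a10 - δ * a9 - δ * e
  have e4 : K * (!![1, 0, 0; 1, 0, 1; 0, 1, 0; 0, 0, 1] : Matrix (Fin 4) (Fin 3) ℤ) =
      MM x y δ L R (σ + σ') (ρ + ρ') (t + t') := by
    rw [hK]
    ext i j; fin_cases i <;> fin_cases j <;>
      simp [MM, Matrix.mul_apply, Fin.sum_univ_succ] <;> ring
  have e5 : K * (!![1, 0, 0; 0, δ, 0; 0, 1, 0; 0, 0, 1] : Matrix (Fin 4) (Fin 3) ℤ) =
      MM x y δ L R σ ρ t := by
    rw [hK]
    ext i j; fin_cases i <;> fin_cases j <;>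
      simp [MM, Matrix.mul_apply, Fin.sum_univ_succ] <;> ring
  rw [e4, e3] at e1
  rw [e5] at e2
  exact e1.trans e2

/-- Shrinking the cone. -/
lemma move_shrink {x y δ' L' R' σ' ρ' t i j : ℤ} (hi : 0 ≤ i) (hj : 0 ≤ j) (hδ : 0 < δ')
    (e1 : σ' + ρ' = δ' * t) (e2 : L' + R' = δ' * (x + y))
    (h1 : 0 ≤ ρ') (h2 : 0 ≤ ρ' + x) (h3 : 0 ≤ σ') (h4 : 0 ≤ σ' - x) (h5 : 0 ≤ t)
    (h6 : 0 ≤ R' - (δ' + i) * x - (δ' + i + j) * ρ') (h7 : 0 ≤ L' + i * x - (δ' + i + j) * σ') :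
    Q (MM x y (δ' + i + j) (L' + i * (x + y)) (R' + j * (x + y)) (σ' + i * t) (ρ' + j * t) t)
      (MM x y δ' L' R' σ' ρ' t) := by
  have h8 : 0 ≤ y - (δ' + i + j) * t := by
    have h9 : 0 ≤ δ' * (y - (δ' + i + j) * t) := by
      have : δ' * (y - (δ' + i + j) * t) = (R' - (δ' + i) * x - (δ' + i + j) * ρ') +
          (L' + i * x - (δ' + i + j) * σ') := by
        linear_combination (-1 : ℤ) * e2 + (δ' + i + j) * e1
      rw [this]; exact add_nonneg h6 h7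
    exact nonneg_of_mul_nonneg_right h9 hδ
  obtain ⟨K, hK⟩ : ∃ K : Matrix (Fin 3) (Fin 3) ℤ, K =
      !![ρ', R' - (δ' + i) * x - (δ' + i + j) * ρ', ρ' + x; t, y - (δ' + i + j) * t, t;
        σ', L' + i * x - (δ' + i + j) * σ', σ' - x] := ⟨_, rfl⟩
  have hKn : NN K := by
    rw [hK]; intro k l; fin_cases k <;> fin_cases l <;> simp <;> linarith
  have hF : NN (!![1, j, 0; 0, 1, 0; 0, i, 1] : Matrix (Fin 3) (Fin 3) ℤ) := by
    intro k l; fin_cases k <;> fin_cases l <;> simp [hi, hj]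
  refine Q.of_elem (!![1, j, 0; 0, 1, 0; 0, i, 1]) K hF hKn ?_ ?_
  · rw [hK]
    ext k l; fin_cases k <;> fin_cases l <;>
      simp [MM, Matrix.mul_apply, Fin.sum_univ_succ] <;> ring
  · rw [hK]
    ext k l; fin_cases k <;> fin_cases l <;>
      simp [MM, Matrix.mul_apply, Fin.sum_univ_succ] <;> ring

/-- Reflection. -/
lemma move_refl {x y δ L R σ ρ t : ℤ} (h : Val x y δ L R σ ρ t) :
    Q (MM x y δ L R σ ρ t) (MM x y δ R L (ρ + x) (σ - x) t) := by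
  obtain ⟨a1, a2, a3, a4, a5, a6, a7, a8, a9, a10⟩ := h
  refine Q.of_elem (!![ρ + x, R - δ * x - δ * ρ, ρ; t, y - δ * t, t; σ - x, L - δ * σ, σ])
    (!![0, 0, 1; 0, 1, 0; 1, 0, 0]) ?_ ?_ ?_ ?_
  · intro k l; fin_cases k <;> fin_cases l <;> simp <;> linarith
  · intro k l; fin_cases k <;> fin_cases l <;> simp
  · ext k l; fin_cases k <;> fin_cases l <;>
      simp [MM, Matrix.mul_apply, Fin.sum_univ_succ]
  · ext k l; fin_cases k <;> fin_cases l <;>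
      simp [MM, Matrix.mul_apply, Fin.sum_univ_succ] <;> ring

/-- Multiplication of the class by a divisor `q` of `y`. -/
lemma move_qy {x y δ L R σ ρ t q : ℤ} (hq : 0 ≤ q) (hqy : q ∣ y)
    (h : Val x y δ L R σ ρ (q * t)) (hq0 : 0 < q) (ht : 0 ≤ t) :
    Q (MM x y δ L R σ ρ (q * t)) (MM x y (q * δ) (q * L) (q * R) σ ρ t) := by
  obtain ⟨w, rfl⟩ := hqy
  obtain ⟨a1, a2, a3, a4, a5, a6, a7, a8, a9, a10⟩ := h
  have hw : 0 ≤ w - δ * t := by
    have h9 : 0 ≤ q * (w - δ * t) := by linarith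
    exact nonneg_of_mul_nonneg_right h9 hq0
  refine Q.of_elem (!![1, 0, 0; 0, q, 0; 0, 0, 1])
    (!![ρ, R - δ * x - δ * ρ, ρ + x; t, w - δ * t, t; σ, L - δ * σ, σ - x]) ?_ ?_ ?_ ?_
  · intro k l; fin_cases k <;> fin_cases l <;> simp [hq]
  · intro k l; fin_cases k <;> fin_cases l <;> simp <;> linarith
  · ext k l; fin_cases k <;> fin_cases l <;>
      simp [MM, Matrix.mul_apply, Fin.sum_univ_succ] <;> ring
  · ext k l; fin_cases k <;> fin_cases l <;>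
      simp [MM, Matrix.mul_apply, Fin.sum_univ_succ] <;> ring

/-- Multiplication of the class by a divisor `q` of `x`. -/
lemma move_qx {x y δ L R σ ρ t q : ℤ} (hq : 0 < q)
    (h : Val (q * x) y δ L R (q * σ) (q * ρ) (q * t)) (ht : 0 ≤ t) :
    Q (MM (q * x) y δ L R (q * σ) (q * ρ) (q * t))
      (MM (q * x) y (q * δ) (q * L) (q * R) (q * σ) (q * ρ) t) := by
  obtain ⟨a1, a2, a3, a4, a5, a6, a7, a8, a9, a10⟩ := h
  have p1 : 0 ≤ ρ := nonneg_of_mul_nonneg_right a1 hq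
  have p2 : 0 ≤ ρ + x := by
    have : 0 ≤ q * (ρ + x) := by linarith
    exact nonneg_of_mul_nonneg_right this hq
  have p3 : 0 ≤ σ := nonneg_of_mul_nonneg_right a3 hq
  have p4 : 0 ≤ σ - x := by
    have : 0 ≤ q * (σ - x) := by linarith
    exact nonneg_of_mul_nonneg_right this hq
  refine Q.of_elem (!![ρ, R - δ * (q * x) - δ * (q * ρ), ρ + x; t, y - q * δ * t, t;
      σ, L - δ * (q * σ), σ - x]) (!![q, 0, 0; 0, 1, 0; 0, 0, q]) ?_ ?_ ?_ ?_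
  · intro k l; fin_cases k <;> fin_cases l <;> simp <;> linarith
  · intro k l; fin_cases k <;> fin_cases l <;> simp [hq.le]
  · ext k l; fin_cases k <;> fin_cases l <;>
      simp [MM, Matrix.mul_apply, Fin.sum_univ_succ] <;> ring
  · ext k l; fin_cases k <;> fin_cases l <;>
      simp [MM, Matrix.mul_apply, Fin.sum_univ_succ] <;> ring

end Pool.Agent.U280.IE
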