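import Pool.Agent.U280.IE.Ends

/-!
# Triangular forms and the end points
-/

set_option autoImplicit false

namespace Pool.Agent.U280.IE

open Matrix Pool.Agent.TH441.SSE2 Pool.Agent.Y321.SE2

/-- The triangular matrix of the class `b`. -/
def PP (x y b : ℤ) : Matrix (Fin 2) (Fin 2) ℤ := !![-x, b; 0, y]

lemma exists_tri_aux {a b c d x y : ℤ} (hb : b ≠ 0)
    (ht : a + d = y - x) (hd : a * d - b * c = -(x * y)) :
    ∃ β, Sim !![a, b; c, d] (PP x y β) := by
  have hg0 : 0 < Int.gcd b (a + x) := Int.gcd_pos_of_ne_zero_left _ hb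
  obtain ⟨v, n, h1, h2, h3⟩ := Int.exists_gcd_one hg0
  obtain ⟨g, hg⟩ : ∃ g : ℤ, g = (Int.gcd b (a + x) : ℤ) := ⟨_, rfl⟩
  rw [← hg] at h2 h3
  have hgne : g ≠ 0 := by rw [hg]; exact_mod_cast hg0.ne'
  obtain ⟨u, w, h4⟩ := Int.isCoprime_iff_gcd_eq_one.mpr h1
  -- `A (v, -n) = -x (v, -n)`
  have k1 : a * v - b * n = -x * v := by
    have : (a + x) * v = b * n := by rw [h2, h3]; ring
    linarith
  have k2 : c * v - d * n = x * n := by
    have h5 : b * c = (a + x) * (d + x) := by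
      linear_combination (-1 : ℤ) * hd - x * ht
    rw [h2, h3] at h5
    have h6 : g * (c * v) = g * (n * (d + x)) := by linear_combination h5
    have h7 := mul_left_cancel₀ hgne h6
    linarith
  obtain ⟨V, hV⟩ : ∃ V : Matrix (Fin 2) (Fin 2) ℤ, V = !![v, w; -n, u] := ⟨_, rfl⟩
  obtain ⟨U, hU⟩ : ∃ U : Matrix (Fin 2) (Fin 2) ℤ, U = !![u, -w; n, v] := ⟨_, rfl⟩
  have hVU : V * U = 1 := by
    rw [hV, hU]
    ext i j; fin_cases i <;> fin_cases j <;>
      simp [Matrix.mul_apply, Fin.sum_univ_two] <;> linarith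
  have hUdet : U.det = 1 := by
    rw [hU, Matrix.det_fin_two_of]; linarith
  refine ⟨u * (a * w + b * u) - w * (c * w + d * u), U,
    by rw [hUdet]; exact isUnit_one, ?_⟩
  have hmain : U * !![a, b; c, d] * V = PP x y (u * (a * w + b * u) -
      w * (c * w + d * u)) := by
    have e00 : u * (a * v - b * n) - w * (c * v - d * n) = -x := by
      rw [k1, k2]; linear_combination (-x) * h4
    have e10 : n * (a * v - b * n) + v * (c * v - d * n) = 0 := by
      rw [k1, k2]; ring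
    have e11 : n * (a * w + b * u) + v * (c * w + d * u) = y := by
      linear_combination (a + d) * h4 + ht - e00
    rw [hU, hV]
    ext i j; fin_cases i <;> fin_cases j <;>
      simp [PP, Matrix.mul_apply, Fin.sum_univ_two]
    · linarith
    · ring
    · linarith
    · linarith
  calc U * !![a, b; c, d] = U * !![a, b; c, d] * (V * U) := by rw [hVU, Matrix.mul_one]
    _ = (U * !![a, b; c, d] * V) * U := by simp only [Matrix.mul_assoc]
    _ = _ := by rw [hmain]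

lemma exists_tri {A : Matrix (Fin 2) (Fin 2) ℤ} {x y : ℤ} (hb : A 0 1 ≠ 0)
    (ht : A 0 0 + A 1 1 = y - x) (hd : A 0 0 * A 1 1 - A 0 1 * A 1 0 = -(x * y)) :
    ∃ b, Sim A (PP x y b) := by
  have h := exists_tri_aux hb ht hd
  rwa [← Matrix.eta_fin_two A] at h

lemma sim_shift {x y b c : ℤ} (h : (x + y) ∣ c - b ∨ (x + y) ∣ c + b) :
    Sim (PP x y b) (PP x y c) := by
  rcases h with ⟨k, hk⟩ | ⟨k, hk⟩
  · refine ⟨!![1, k; 0, 1], by simp [Matrix.det_fin_two], ?_⟩
    ext i j; fin_cases i <;> fin_cases j <;>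
      simp [PP, Matrix.mul_apply, Fin.sum_univ_two]
    linarith
  · refine ⟨!![-1, k; 0, 1], by simp [Matrix.det_fin_two], ?_⟩
    ext i j; fin_cases i <;> fin_cases j <;>
      simp [PP, Matrix.mul_apply, Fin.sum_univ_two]
    linarith

/-- Trace and determinant of a matrix similar to a triangular one. -/
lemma tr_det {A : Matrix (Fin 2) (Fin 2) ℤ} {x y b : ℤ} (h : Sim A (PP x y b)) :
    A 0 0 + A 1 1 = y - x ∧ A 0 0 * A 1 1 - A 0 1 * A 1 0 = -(x * y) := by
  obtain ⟨U, hU, hUA⟩ := h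
  obtain ⟨h1, h2⟩ := inv_entries (X := PP x y b) (T := y - x) (D := x * y) hU hUA.symm
    (by rw [Matrix.trace_fin_two]; simp [PP]; ring)
    (by rw [Matrix.det_fin_two]; simp [PP])
  constructor
  · linarith
  · linarith

/-- A matrix with positive off-diagonal entries is not similar to a diagonal one. -/
lemma not_diag {A : Matrix (Fin 2) (Fin 2) ℤ} {x y : ℤ} (hN : 0 < x + y)
    (h01 : 1 ≤ A 0 1) (h10 : 1 ≤ A 1 0) : ¬ Sim A (PP x y 0) := by
  intro h
  obtain ⟨ht, hd⟩ := tr_det h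
  obtain ⟨U, hU, hUA⟩ := h
  have k00 := congrFun (congrFun hUA 0) 0
  have k01 := congrFun (congrFun hUA 0) 1
  have k10 := congrFun (congrFun hUA 1) 0
  have k11 := congrFun (congrFun hUA 1) 1
  simp [PP, Matrix.mul_apply, Fin.sum_univ_two] at k00 k01 k10 k11
  have d1 : (x + y) ∣ A 0 1 * U.det := by
    refine ⟨-(U 0 1 * U 1 1), ?_⟩
    rw [Matrix.det_fin_two]
    linear_combination U 1 1 * k01 - U 0 1 * k11
  have d2 : (x + y) ∣ A 1 0 * U.det := by
    refine ⟨U 0 0 * U 1 0, ?_⟩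
    rw [Matrix.det_fin_two]
    linear_combination U 0 0 * k10 - U 1 0 * k00
  have d3 : ∀ z : ℤ, (x + y) ∣ z * U.det → (x + y) ∣ z := by
    intro z hz
    exact (hU.dvd_mul_right).mp hz
  have e1 := Int.le_of_dvd (by linarith) (d3 _ d1)
  have e2 := Int.le_of_dvd (by linarith) (d3 _ d2)
  have e3 : A 0 1 * A 1 0 = (A 0 0 + x) * (A 1 1 + x) := by
    linear_combination (-1 : ℤ) * hd - x * ht
  have e4 : (x + y) * (x + y) ≤ A 0 1 * A 1 0 :=
    mul_le_mul e1 e2 hN.le (by linarith)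
  have e5 : A 1 1 + x = (x + y) - (A 0 0 + x) := by linarith
  rw [e3, e5] at e4
  nlinarith [sq_nonneg (2 * (A 0 0 + x) - (x + y)), mul_pos hN hN]

lemma endp_pos {x y b : ℤ} (hx : 1 ≤ x) (hreg : Reg x 0 y)
    (hq : 500 * (x * y) ≤ (y - x) ^ 2) (hxy : x < y) {A : Matrix (Fin 2) (Fin 2) ℤ}
    (hA : NN A) (h01 : 1 ≤ A 0 1) (h10 : 1 ≤ A 1 0) (hs : Sim A (PP x y b)) :
    Q A (ZZ x 0 y b) := by
  have hN0 := hreg.N0
  obtain ⟨r, hr⟩ : ∃ r, r = nn (x - 0 + y) b := ⟨_, rfl⟩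
  obtain ⟨r0, r1⟩ := nn_bd hN0 b
  have hsr : Sim (PP x y b) (PP x y r) := by
    refine sim_shift ?_
    have := nn_cong (N := x - 0 + y) b
    rw [← hr] at this
    rwa [sub_zero] at this
  rw [← hr] at r0 r1
  have hr1 : 1 ≤ r := by
    by_contra hne
    push Not at hne
    have h0 : r = 0 := by omega
    rw [h0] at hsr
    exact not_diag (by linarith) h01 h10 (hs.trans hsr)
  obtain ⟨ht, hd⟩ := tr_det hs
  obtain ⟨j1, j2⟩ := cd_spec x r hr1
  obtain ⟨j, hj⟩ : ∃ j, j = cd x r := ⟨_, rfl⟩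
  rw [← hj] at j1 j2
  have hj1 : 1 ≤ j := by
    by_contra hne
    push Not at hne
    have : j * r ≤ 0 := mul_nonpos_of_nonpos_of_nonneg (by omega) r0
    linarith
  have h16 := hreg.h 1 (by norm_num) (Or.inl (by linarith))
  have q1 := ends_pos (y := y) hx hr1 j1 j2 hj1 (by linarith) (by linarith)
  obtain ⟨C, hC⟩ : ∃ C, C = (K1 x 0 r y j)ᵀ := ⟨_, rfl⟩
  have hCs : Sim C (PP x y r) := by
    have h1 := (K1_sim x 0 r y j).transpose
    have e : (!![-x, 0; r, y] : Matrix (Fin 2) (Fin 2) ℤ)ᵀ = PP x y r := by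
      ext k l; fin_cases k <;> fin_cases l <;> simp [PP]
    rw [e, ← hC] at h1
    exact h1
  have hCn : NN C := by
    rw [hC]
    have c1 : 0 ≤ j * (x + y - j * r) := mul_nonneg (by linarith) (by linarith)
    intro k l; fin_cases k <;> fin_cases l <;> simp [K1]
    · linarith
    · linarith
    · linarith
    · linarith
  rw [← hC] at q1
  have hsim : Sim C A := hCs.trans (hsr.symm.trans hs.symm)
  have q2 := sim_Q (T := y - x) (D := x * y) hA hCn hsim
    (by rw [Matrix.trace_fin_two]; exact ht)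
    (by rw [Matrix.det_fin_two]; exact hd) (by linarith)
    (mul_pos (by linarith) (by linarith)) (by
      have : 0 < x * y := mul_pos (by linarith) (by linarith)
      linarith)
  have e : ZZ x 0 y b = YY x 0 y r := by rw [hr]; rfl
  rw [e]
  exact q2.trans q1

/-- Similar irreducible matrices with positive determinant. -/
lemma sim_QP' {A A'' : Matrix (Fin 2) (Fin 2) ℤ} {T D : ℤ} (hA'' : NN A'')
    (p1 : 1 ≤ A 0 1) (p2 : 1 ≤ A 1 0) (p3 : 1 ≤ A'' 0 1) (p4 : 1 ≤ A'' 1 0)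
    (hs : Sim A'' A) (hT : A.trace = T) (hD : A.det = -D) (hT0 : 0 < T) (hD0 : D < 0)
    (hTD : 500 * -D ≤ T ^ 2) : Q A A'' := by
  obtain ⟨U, hU, hUA⟩ := hs
  obtain ⟨i1, i2⟩ := inv_entries hU hUA.symm hT hD
  rw [Matrix.trace_fin_two] at hT
  rw [Matrix.det_fin_two] at hD
  have hAeta := Matrix.eta_fin_two A
  have hA''eta := Matrix.eta_fin_two A''
  have hUeta := Matrix.eta_fin_two U
  have hUdet : U 0 0 * U 1 1 - U 0 1 * U 1 0 = 1 ∨ U 0 0 * U 1 1 - U 0 1 * U 1 0 = -1 := by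
    rw [← Matrix.det_fin_two]
    exact Int.isUnit_iff.mp hU
  rcases hUdet with h1 | h1
  · have h := river_one T (-D) hT0 (by linarith) (by linarith) (A 0 0) (A 0 1) (A 1 0) (A 1 1)
      (U 0 0) (U 0 1) (U 1 0) (U 1 1) (A'' 0 0) (A'' 0 1) (A'' 1 0) (A'' 1 1) p1 p2
      hT.symm (by linarith) i1 (by linarith) h1 p3 p4
      (by rw [← hAeta, ← hUeta, ← hA''eta]; exact hUA.symm)
    rw [← hAeta, ← hA''eta] at h
    exact h
  · have h2 : !![A 0 0, A 0 1; A 1 0, A 1 1] * !![U 0 1, U 0 0; U 1 1, U 1 0] =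
        !![U 0 1, U 0 0; U 1 1, U 1 0] * !![A'' 1 1, A'' 1 0; A'' 0 1, A'' 0 0] := by
      have k00 := congrFun (congrFun hUA 0) 0
      have k01 := congrFun (congrFun hUA 0) 1
      have k10 := congrFun (congrFun hUA 1) 0
      have k11 := congrFun (congrFun hUA 1) 1
      simp only [Matrix.mul_apply, Fin.sum_univ_two] at k00 k01 k10 k11
      ext i j; fin_cases i <;> fin_cases j <;>
        simp [Matrix.mul_apply, Fin.sum_univ_two] <;> linarith
    have h := river_one T (-D) hT0 (by linarith) (by linarith) (A 0 0) (A 0 1) (A 1 0) (A 1 1)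
      (U 0 1) (U 0 0) (U 1 1) (U 1 0) (A'' 1 1) (A'' 1 0) (A'' 0 1) (A'' 0 0) p1 p2
      hT.symm (by linarith) (by linarith) (by linarith) (by linarith) p4 p3 h2
    rw [← hAeta] at h
    have h3 := Q.swap (A'' 0 0) (A'' 0 1) (A'' 1 0) (A'' 1 1) (hA'' 0 0) (hA'' 0 1) (hA'' 1 0)
      (hA'' 1 1)
    rw [← hA''eta] at h3
    exact h.trans h3.symm

lemma endp_neg {z y b : ℤ} (hz : 1 ≤ z) (hreg : Reg 0 z y)
    (hq : 500 * (z * y) ≤ (y + z) ^ 2) {A : Matrix (Fin 2) (Fin 2) ℤ}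
    (h01 : 1 ≤ A 0 1) (h10 : 1 ≤ A 1 0) (hs : Sim A (PP (-z) y b)) :
    Q A (ZZ 0 z y b) := by
  have hN0 := hreg.N0
  have hy := hreg.hy
  obtain ⟨r, hr⟩ : ∃ r, r = nn (0 - z + y) b := ⟨_, rfl⟩
  obtain ⟨r0, r1⟩ := nn_bd hN0 b
  have hsr : Sim (PP (-z) y b) (PP (-z) y r) := by
    refine sim_shift ?_
    have := nn_cong (N := 0 - z + y) b
    rw [← hr] at this
    rwa [zero_sub] at this
  rw [← hr] at r0 r1
  have hr1 : 1 ≤ r := by
    by_contra hne
    push Not at hne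
    have h0 : r = 0 := by omega
    rw [h0] at hsr
    exact not_diag (by linarith) h01 h10 (hs.trans hsr)
  obtain ⟨ht, hd⟩ := tr_det hs
  obtain ⟨j1, j2⟩ := cd_spec z r hr1
  obtain ⟨j, hj⟩ : ∃ j, j = cd z r := ⟨_, rfl⟩
  rw [← hj] at j1 j2
  have hj1 : 1 ≤ j := by
    by_contra hne
    push Not at hne
    have : j * r ≤ 0 := mul_nonpos_of_nonpos_of_nonneg (by omega) r0
    linarith
  have h16 := hreg.h z (by linarith) (Or.inl (by linarith))
  have q1 := ends_neg (y := y) hz hr1 j1 j2 hj1 (by linarith) (by linarith)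
  obtain ⟨C, hC⟩ : ∃ C, C = (K1 (-z) 0 r y j)ᵀ := ⟨_, rfl⟩
  have hCs : Sim C (PP (-z) y r) := by
    have h1 := (K1_sim (-z) 0 r y j).transpose
    have e : (!![- -z, 0; r, y] : Matrix (Fin 2) (Fin 2) ℤ)ᵀ = PP (-z) y r := by
      ext k l; fin_cases k <;> fin_cases l <;> simp [PP]
    rw [e, ← hC] at h1
    exact h1
  have c1 : 1 * 1 ≤ j * (-z + y - j * r) :=
    mul_le_mul hj1 (by linarith) (by norm_num) (by linarith)
  have c2 : 1 * 1 ≤ j * r := mul_le_mul hj1 hr1 (by norm_num) (by linarith)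
  have hCn : NN C := by
    rw [hC]
    intro k l; fin_cases k <;> fin_cases l <;> simp [K1]
    · linarith
    · linarith
    · linarith
    · linarith
  have p3 : 1 ≤ C 0 1 := by rw [hC]; simp [K1]; linarith
  have p4 : 1 ≤ C 1 0 := by rw [hC]; simp [K1]; linarith
  rw [← hC] at q1
  have hsim : Sim C A := hCs.trans (hsr.symm.trans hs.symm)
  have hzy : 0 < z * y := mul_pos (by linarith) hy
  have q2 := sim_QP' (T := y - -z) (D := -z * y) hCn h01 h10 p3 p4 hsim
    (by rw [Matrix.trace_fin_two]; exact ht)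
    (by rw [Matrix.det_fin_two]; exact hd) (by linarith) (by linarith) (by
      have e : y - -z = y + z := by ring
      rw [e]; linarith)
  have e : ZZ 0 z y b = YY 0 z y r := by rw [hr]; rfl
  rw [e]
  exact q2.trans q1

end Pool.Agent.U280.IE
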